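import Pool.Agent.Helper34.FF.G1
import Pool.Agent.Helper34.FF.Goals3

/-!
# C7. The barrier around the intersection of two cuts
-/

namespace Pool.Agent.Helper41.FF

open Finset
open scoped symmDiff Classical
open Pool.Agent.Helper34.FF

section
variable {V F : Type} [Fintype V] [Fintype F] {T : Tri V F}

/-- The number of faces of `S` at the edge `e`. -/
noncomputable def nf (T : Tri V F) (e : Sym2 V) (S : Finset F) : ℕ :=
  (S.filter fun f => T.on e f).card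

lemma nf_union {S S' : Finset F} (h : Disjoint S S') (e : Sym2 V) :
    nf T e (S ∪ S') = nf T e S + nf T e S' := by
  unfold nf
  rw [filter_union, card_union_of_disjoint]
  exact disjoint_filter_filter h

lemma nf_univ {e : Sym2 V} (he : e ∈ T.G.edgeSet) : nf T e univ = 2 :=
  (pAlg V F T).2.2.2.1 e he

lemma nf_four {A B : Finset F} {e : Sym2 V} (he : e ∈ T.G.edgeSet) :
    nf T e A = nf T e (A \ B) + nf T e (A ∩ B) ∧
    nf T e B = nf T e (B \ A) + nf T e (A ∩ B) ∧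
    nf T e (A \ B) + nf T e (B \ A) + nf T e (A ∩ B) + nf T e (A ∪ B)ᶜ = 2 := by
  have h1 : nf T e A = nf T e (A \ B) + nf T e (A ∩ B) := by
    rw [← nf_union (disjoint_sdiff_inter A B), sdiff_union_inter]
  have h2 : nf T e B = nf T e (B \ A) + nf T e (A ∩ B) := by
    have h := disjoint_sdiff_inter B A
    have h' := sdiff_union_inter B A
    rw [inter_comm] at h h'
    rw [← nf_union h, h']
  refine ⟨h1, h2, ?_⟩
  have h3 : nf T e (A ∪ B) = nf T e A + nf T e (B \ A) := by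
    rw [← nf_union disjoint_sdiff, union_sdiff_self_eq_union]
  have h4 : nf T e (A ∪ B) + nf T e (A ∪ B)ᶜ = 2 := by
    rw [← nf_union disjoint_compl_right, union_compl, nf_univ he]
  omega

lemma mem_bdry {S : Finset F} {e : Sym2 V} :
    e ∈ T.bdry S ↔ e ∈ T.G.edgeSet ∧ nf T e S = 1 := by
  simp [Tri.bdry, nf]

lemma mem_btw {A B : Finset F} {e : Sym2 V} :
    e ∈ T.btw A B ↔ e ∈ T.G.edgeSet ∧ nf T e A = 1 ∧ nf T e B = 1 := by
  simp [Tri.btw, nf]

/-- The configuration of the packet. -/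
structure Cfg (T : Tri V F) (l h : ℕ) (A B : Finset F) (c₁ c₂ : ℤ → V) : Prop where
  sph : T.Sphere
  bA : T.Bond A
  bB : T.Bond B
  bO : T.Bond (A ∪ B)ᶜ
  i1 : T.Iso (A \ B) l c₁
  i2 : T.Iso (B \ A) l c₂
  h1 : 1 ≤ h
  hl : 2 * h ≤ l
  p : c₁ 0 = c₂ 0
  q : c₁ h = c₂ h
  e1 : T.btw (A \ B) B = arcE c₁ 0 h
  e2 : T.btw (A \ B) (A ∪ B)ᶜ = arcE c₁ h l
  e3 : T.btw (B \ A) A = arcE c₂ 0 h
  e4 : T.btw (B \ A) (A ∪ B)ᶜ = arcE c₂ h l
  e5 : T.btw (A ∩ B) (A ∪ B)ᶜ = ∅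

variable {l h : ℕ} {A B : Finset F} {c₁ c₂ : ℤ → V}

lemma Cfg.swap (H : Cfg T l h A B c₁ c₂) : Cfg T l h B A c₂ c₁ where
  sph := H.sph
  bA := H.bB
  bB := H.bA
  bO := by rw [union_comm]; exact H.bO
  i1 := H.i2
  i2 := H.i1
  h1 := H.h1
  hl := H.hl
  p := H.p.symm
  q := H.q.symm
  e1 := H.e3
  e2 := by rw [union_comm]; exact H.e4
  e3 := H.e1
  e4 := by rw [union_comm]; exact H.e2
  e5 := by rw [union_comm, inter_comm]; exact H.e5

/-- Boundary of the outer region. -/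
lemma Cfg.bdO (H : Cfg T l h A B c₁ c₂) {e : Sym2 V} :
    e ∈ T.bdry (A ∪ B)ᶜ ↔ e ∈ arcE c₁ h l ∨ e ∈ arcE c₂ h l := by
  rw [← H.e2, ← H.e4, mem_bdry, mem_btw, mem_btw]
  constructor
  · rintro ⟨he, h1⟩
    obtain ⟨-, -, h4⟩ := nf_four (A := A) (B := B) he
    have h5 : nf T e (A ∩ B) ≠ 1 := by
      intro h5
      have : e ∈ T.btw (A ∩ B) (A ∪ B)ᶜ := mem_btw.2 ⟨he, h5, h1⟩
      rw [H.e5] at this
      simp at this
    by_cases h6 : nf T e (A \ B) = 1
    · exact Or.inl ⟨he, h6, h1⟩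
    · exact Or.inr ⟨he, by omega, h1⟩
  · rintro (⟨he, h1, h2⟩ | ⟨he, h1, h2⟩)
    · exact ⟨he, h2⟩
    · exact ⟨he, h2⟩

/-- Boundary of `B`. -/
lemma Cfg.bdB (H : Cfg T l h A B c₁ c₂) {e : Sym2 V} :
    e ∈ T.bdry B ↔ e ∈ arcE c₁ 0 h ∨ e ∈ arcE c₂ h l := by
  rw [← H.e1, ← H.e4, mem_bdry, mem_btw, mem_btw]
  constructor
  · rintro ⟨he, h1⟩
    obtain ⟨h2, h3, h4⟩ := nf_four (A := A) (B := B) he
    by_cases h6 : nf T e (A \ B) = 1
    · exact Or.inl ⟨he, h6, h1⟩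
    · have h7 : nf T e (A ∪ B)ᶜ = 1 := by omega
      have h5 : nf T e (A ∩ B) ≠ 1 := by
        intro h5
        have : e ∈ T.btw (A ∩ B) (A ∪ B)ᶜ := mem_btw.2 ⟨he, h5, h7⟩
        rw [H.e5] at this
        simp at this
      exact Or.inr ⟨he, by omega, h7⟩
  · rintro (⟨he, h1, h2⟩ | ⟨he, h1, h2⟩)
    · exact ⟨he, h2⟩
    · obtain ⟨h3, h4, h5⟩ := nf_four (A := A) (B := B) he
      exact ⟨he, by omega⟩

/-- Boundary of the intersection. -/
lemma Cfg.bdZ (H : Cfg T l h A B c₁ c₂) {e : Sym2 V} (he : e ∈ T.bdry (A ∩ B)) :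
    e ∈ arcE c₁ 0 h ∨ e ∈ arcE c₂ 0 h := by
  rw [← H.e1, ← H.e3, mem_btw, mem_btw]
  obtain ⟨he, h1⟩ := mem_bdry.1 he
  obtain ⟨h2, h3, h4⟩ := nf_four (A := A) (B := B) he
  have h5 : nf T e (A ∪ B)ᶜ ≠ 1 := by
    intro h5
    have : e ∈ T.btw (A ∩ B) (A ∪ B)ᶜ := mem_btw.2 ⟨he, h1, h5⟩
    rw [H.e5] at this
    simp at this
  by_cases h6 : nf T e (A \ B) = 1
  · exact Or.inl ⟨he, h6, by omega⟩
  · exact Or.inr ⟨he, by omega, by omega⟩

/-- The two arcs of different regions are disjoint. -/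
lemma Cfg.disj (H : Cfg T l h A B c₁ c₂) {e : Sym2 V} (h1 : e ∈ arcE c₂ h l) :
    e ∉ arcE c₁ 0 h ∧ e ∉ arcE c₁ h l := by
  rw [← H.e4, mem_btw] at h1
  rw [← H.e1, ← H.e2, mem_btw, mem_btw]
  obtain ⟨he, h1, h2⟩ := h1
  obtain ⟨h3, h4, h5⟩ := nf_four (A := A) (B := B) he
  constructor
  · rintro ⟨-, h6, h7⟩
    omega
  · rintro ⟨-, h6, h7⟩
    omega

omit [Fintype V] in
lemma mem_arcE {c : ℤ → V} {i j : ℤ} {e : Sym2 V} :
    e ∈ arcE c i j ↔ ∃ t, i ≤ t ∧ t < j ∧ s(c t, c (t + 1)) = e := by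
  simp [arcE, and_assoc]

/-- The degree of a boundary vertex of a bond. -/
lemma bond_deg (hS : T.Sphere) {S : Finset F} (hb : T.Bond S) {x : V} {e₁ e₂ e₃ : Sym2 V}
    (h1 : e₁ ∈ T.bdry S) (h2 : e₂ ∈ T.bdry S) (h3 : e₃ ∈ T.bdry S) (h12 : e₁ ≠ e₂)
    (h13 : e₁ ≠ e₃) (h23 : e₂ ≠ e₃) (x1 : x ∈ e₁) (x2 : x ∈ e₂) (x3 : x ∈ e₃) : False := by
  obtain ⟨c, hc⟩ := pEnum V F T hS S hb
  obtain ⟨-, -, -, -, hd, -⟩ := pEnumFacts V F T hS S _ c hc
  have hx : x ∈ T.Vbd S := by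
    simp only [Tri.Vbd, mem_filter, mem_univ, true_and]
    exact ⟨e₁, h1, x1⟩
  have h := hd x hx
  have hsub : ({e₁, e₂, e₃} : Finset (Sym2 V)) ⊆ (T.bdry S).filter fun e => x ∈ e := by
    intro e he
    simp only [mem_insert, mem_singleton] at he
    rcases he with rfl | rfl | rfl <;> simp [*]
  have := card_le_card hsub
  rw [h, card_eq_three.2 ⟨e₁, e₂, e₃, h12, h13, h23, rfl⟩] at this
  omega

/-- Consecutive edges of an enumeration are different. -/
lemma Enum_ne {S : Finset F} {c : ℤ → V} (hc : T.Enum S l c) (t : ℤ) :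
    s(c (t - 1), c t) ≠ s(c t, c (t + 1)) := by
  intro h
  have h3 := hc.three
  rw [Sym2.eq_iff] at h
  rcases h with ⟨h1, -⟩ | ⟨h1, -⟩
  · have := hc.inj _ _ h1
    rw [show t - 1 - t = -1 by ring] at this
    have := Int.le_of_dvd (by norm_num) ((dvd_neg.2 this))
    omega
  · have := hc.inj _ _ h1
    rw [show t - 1 - (t + 1) = -2 by ring] at this
    have := Int.le_of_dvd (by norm_num) ((dvd_neg.2 this))
    omega

lemma Enum_inj {S : Finset F} {c : ℤ → V} (hc : T.Enum S l c) {i j : ℤ} (h : c i = c j)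
    (h1 : i - j < l) (h2 : j - i < l) : i = j := by
  have h3 := hc.inj _ _ h
  by_contra hne
  rcases lt_or_gt_of_ne hne with h4 | h4
  · have h5 : (l : ℤ) ∣ j - i := by rw [← neg_sub]; exact dvd_neg.2 h3
    have := Int.le_of_dvd (by omega) h5
    omega
  · have := Int.le_of_dvd (by omega) h3
    omega

/-- A vertex of the inner arc is not on the boundary of the outer region. -/
lemma Cfg.inner (H : Cfg T l h A B c₁ c₂) {j : ℤ} (h0 : 0 < j) (hj : j < h) :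
    c₁ j ∉ T.Vbd (A ∪ B)ᶜ := by
  intro hc
  simp only [Tri.Vbd, mem_filter, mem_univ, true_and] at hc
  obtain ⟨e, he, hx⟩ := hc
  have hl := H.hl
  rcases H.bdO.1 he with h1 | h1
  · obtain ⟨t, h2, h3, rfl⟩ := mem_arcE.1 h1
    rw [Sym2.mem_iff] at hx
    rcases hx with hx | hx
    · have := Enum_inj H.i1.1 hx (by omega) (by omega)
      omega
    · have := Enum_inj H.i1.1 hx (by omega) (by omega)
      omega
  · have h2 : s(c₁ (j - 1), c₁ j) ∈ arcE c₁ 0 h :=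
      mem_arcE.2 ⟨j - 1, by omega, by omega, by rw [sub_add_cancel]⟩
    have h3 : s(c₁ j, c₁ (j + 1)) ∈ arcE c₁ 0 h := mem_arcE.2 ⟨j, by omega, by omega, rfl⟩
    have h4 := (H.disj h1).1
    refine bond_deg H.sph H.bB (H.bdB.2 (Or.inl h2)) (H.bdB.2 (Or.inl h3))
      (H.bdB.2 (Or.inr h1)) (Enum_ne H.i1.1 j) ?_ ?_ (x := c₁ j) ?_ ?_ hx
    · rintro rfl
      exact h4 h2
    · rintro rfl
      exact h4 h3
    · simp
    · simp

/-- A vertex of the outer arc has all its faces outside `B`. -/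
lemma Cfg.outer (H : Cfg T l h A B c₁ c₂) {q : ℤ} (h0 : h < q) (hq : q < l) :
    c₁ q ∈ T.Vin Bᶜ := by
  have hnb : c₁ q ∉ T.Vbd B := by
    intro hc
    simp only [Tri.Vbd, mem_filter, mem_univ, true_and] at hc
    obtain ⟨e, he, hx⟩ := hc
    rcases H.bdB.1 he with h1 | h1
    · obtain ⟨t, h2, h3, rfl⟩ := mem_arcE.1 h1
      rw [Sym2.mem_iff] at hx
      rcases hx with hx | hx
      · have := Enum_inj H.i1.1 hx (by omega) (by omega)
        omega
      · have := Enum_inj H.i1.1 hx (by omega) (by omega)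
        omega
    · have h2 : s(c₁ (q - 1), c₁ q) ∈ arcE c₁ h l :=
        mem_arcE.2 ⟨q - 1, by omega, by omega, by rw [sub_add_cancel]⟩
      have h3 : s(c₁ q, c₁ (q + 1)) ∈ arcE c₁ h l := mem_arcE.2 ⟨q, by omega, by omega, rfl⟩
      have h4 := (H.disj h1).2
      refine bond_deg H.sph H.bO (H.bdO.2 (Or.inl h2)) (H.bdO.2 (Or.inl h3))
        (H.bdO.2 (Or.inr h1)) (Enum_ne H.i1.1 q) ?_ ?_ (x := c₁ q) ?_ ?_ hx
      · rintro rfl
        exact h4 h2
      · rintro rfl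
        exact h4 h3
      · simp
      · simp
  obtain ⟨t1, t2, t3, t4, t5⟩ := pTri V F T H.sph
  rcases t1 B (c₁ q) with h1 | h1 | h1
  · exfalso
    obtain ⟨-, -, -, hv, -⟩ := pEnumFacts V F T H.sph _ _ _ H.i1.1
    obtain ⟨f, hf, hf'⟩ := (t4 (A \ B) (c₁ q) ((hv _).2 ⟨q, rfl⟩)).1
    simp only [Tri.Vin, mem_filter, mem_univ, true_and] at h1
    exact (mem_sdiff.1 hf).2 (h1 f hf')
  · exact absurd h1 hnb
  · exact h1

/-- A boundary vertex has a position in `[0, l]`. -/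
lemma pos_exists (hS : T.Sphere) {S : Finset F} {c : ℤ → V} (hc : T.Enum S l c) {v : V}
    (hv : v ∈ T.Vbd S) : ∃ q : ℤ, 0 ≤ q ∧ q < l ∧ v = c q := by
  obtain ⟨-, -, -, hv', -⟩ := pEnumFacts V F T hS _ _ _ hc
  obtain ⟨i, rfl⟩ := (hv' v).1 hv
  have h3 := hc.three
  refine ⟨i % l, Int.emod_nonneg _ (by omega), Int.emod_lt_of_pos _ (by omega), ?_⟩
  have hper : ∀ n : ℕ, ∀ i, c (i + n * l) = c i := by
    intro n
    induction n with
    | zero => intro i; simp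
    | succ n ih =>
      intro i
      rw [show i + ((n + 1 : ℕ) : ℤ) * l = i + n * l + l by push_cast; ring, hc.per, ih]
  have h := Int.emod_add_mul_ediv i l
  rcases le_total 0 (i / (l : ℤ)) with h0 | h0
  · obtain ⟨n, hn⟩ := Int.eq_ofNat_of_zero_le h0
    have := hper n (i % l)
    rw [← this]
    congr 1
    rw [← hn]
    linarith [mul_comm (l : ℤ) (i / l)]
  · obtain ⟨n, hn⟩ := Int.eq_ofNat_of_zero_le (show 0 ≤ -(i / (l : ℤ)) by omega)
    have := hper n i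
    rw [← this]
    congr 1
    rw [← hn]
    linarith [mul_comm (l : ℤ) (i / l), neg_mul (i / (l : ℤ)) l]

/-- The barrier. -/
noncomputable def barr (c₁ c₂ : ℤ → V) (h : ℕ) : Finset V := arcV c₁ 0 h ∪ arcV c₂ 0 h

omit [Fintype V] in
lemma mem_barr {v : V} : v ∈ barr c₁ c₂ h ↔
    (∃ j : ℤ, 0 ≤ j ∧ j ≤ h ∧ v = c₁ j) ∨ ∃ j : ℤ, 0 ≤ j ∧ j ≤ h ∧ v = c₂ j := by
  simp only [barr, arcV, mem_union, mem_image, mem_Icc]
  constructor
  · rintro (⟨j, ⟨h1, h2⟩, rfl⟩ | ⟨j, ⟨h1, h2⟩, rfl⟩)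
    · exact Or.inl ⟨j, h1, h2, rfl⟩
    · exact Or.inr ⟨j, h1, h2, rfl⟩
  · rintro (⟨j, h1, h2, rfl⟩ | ⟨j, h1, h2, rfl⟩)
    · exact Or.inl ⟨j, ⟨h1, h2⟩, rfl⟩
    · exact Or.inr ⟨j, ⟨h1, h2⟩, rfl⟩

omit [Fintype V] in
lemma barr_swap : barr c₁ c₂ h = barr c₂ c₁ h := union_comm _ _

lemma Cfg.Vbd1 (H : Cfg T l h A B c₁ c₂) (j : ℤ) : c₁ j ∈ T.Vbd (A \ B) := by
  obtain ⟨-, -, -, hv, -⟩ := pEnumFacts V F T H.sph _ _ _ H.i1.1
  exact (hv _).2 ⟨j, rfl⟩

lemma Cfg.Vbd2 (H : Cfg T l h A B c₁ c₂) (j : ℤ) : c₂ j ∈ T.Vbd (B \ A) := by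
  obtain ⟨-, -, -, hv, -⟩ := pEnumFacts V F T H.sph _ _ _ H.i2.1
  exact (hv _).2 ⟨j, rfl⟩

/-- A vertex of the barrier has a face in `A ∪ B`. -/
lemma Cfg.barr_face (H : Cfg T l h A B c₁ c₂) {v : V} (hv : v ∈ barr c₁ c₂ h) :
    v ∉ T.Vin (A ∪ B)ᶜ := by
  intro hin
  simp only [Tri.Vin, mem_filter, mem_univ, true_and] at hin
  obtain ⟨t1, t2, t3, t4, t5⟩ := pTri V F T H.sph
  rcases mem_barr.1 hv with ⟨j, -, -, rfl⟩ | ⟨j, -, -, rfl⟩
  · obtain ⟨f, hf, hf'⟩ := (t4 _ _ (H.Vbd1 j)).1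
    have := hin f hf'
    simp only [mem_compl, mem_union, mem_sdiff] at this hf
    tauto
  · obtain ⟨f, hf, hf'⟩ := (t4 _ _ (H.Vbd2 j)).1
    have := hin f hf'
    simp only [mem_compl, mem_union, mem_sdiff] at this hf
    tauto

lemma Vbd_mem {S : Finset F} {e : Sym2 V} {v : V} (he : e ∈ T.bdry S) (hv : v ∈ e) :
    v ∈ T.Vbd S := by
  simp only [Tri.Vbd, mem_filter, mem_univ, true_and]
  exact ⟨e, he, hv⟩

/-- Vertices of the outer arc are on the boundary of the outer region. -/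
lemma Cfg.outer_bd (H : Cfg T l h A B c₁ c₂) {q : ℤ} (h0 : h ≤ q) (hq : q ≤ l) :
    c₁ q ∈ T.Vbd (A ∪ B)ᶜ := by
  have hl := H.hl
  have h1 := H.h1
  rcases lt_or_eq_of_le hq with h2 | rfl
  · exact Vbd_mem (H.bdO.2 (Or.inl (mem_arcE.2 ⟨q, h0, h2, rfl⟩))) (by simp)
  · exact Vbd_mem (H.bdO.2 (Or.inl (mem_arcE.2 ⟨(l : ℤ) - 1, by omega, by omega, rfl⟩)))
      (by simp)

/-- Positions of boundary vertices of the outer region. -/
lemma Cfg.pos_outer (H : Cfg T l h A B c₁ c₂) {v : V} (hv : v ∈ T.Vbd (A ∪ B)ᶜ)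
    (hb : v ∉ barr c₁ c₂ h) :
    ∃ q : ℤ, h < q ∧ q < l ∧ (v = c₁ q ∨ v = c₂ q) := by
  simp only [Tri.Vbd, mem_filter, mem_univ, true_and] at hv
  obtain ⟨e, he, hx⟩ := hv
  have key : ∀ q : ℤ, h ≤ q → q ≤ l → (v = c₁ q ∨ v = c₂ q) →
      ∃ q : ℤ, h < q ∧ q < l ∧ (v = c₁ q ∨ v = c₂ q) := by
    intro q h1 h2 h3
    rcases lt_or_eq_of_le h1 with h4 | h4
    · rcases lt_or_eq_of_le h2 with h5 | h5
      · exact ⟨q, h4, h5, h3⟩
      · exfalso
        apply hb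
        subst h5
        have e1 : c₁ (l : ℤ) = c₁ 0 := by simpa using H.i1.1.per 0
        have e2 : c₂ (l : ℤ) = c₂ 0 := by simpa using H.i2.1.per 0
        rw [e1, e2] at h3
        rcases h3 with h3 | h3
        · exact mem_barr.2 (Or.inl ⟨0, le_refl _, by omega, h3⟩)
        · exact mem_barr.2 (Or.inr ⟨0, le_refl _, by omega, h3⟩)
    · exfalso
      apply hb
      subst h4
      rcases h3 with h3 | h3
      · exact mem_barr.2 (Or.inl ⟨h, by omega, by omega, h3⟩)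
      · exact mem_barr.2 (Or.inr ⟨h, by omega, by omega, h3⟩)
  rcases H.bdO.1 he with h1 | h1
  · obtain ⟨t, h2, h3, rfl⟩ := mem_arcE.1 h1
    rw [Sym2.mem_iff] at hx
    rcases hx with hx | hx
    · exact key t h2 h3.le (Or.inl hx)
    · exact key (t + 1) (by omega) (by omega) (Or.inl hx)
  · obtain ⟨t, h2, h3, rfl⟩ := mem_arcE.1 h1
    rw [Sym2.mem_iff] at hx
    rcases hx with hx | hx
    · exact key t h2 h3.le (Or.inr hx)
    · exact key (t + 1) (by omega) (by omega) (Or.inr hx)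

/-- The two faces of an edge. -/
lemma edge_face {u v : V} (h : T.G.Adj u v) : ∃ f, u ∈ T.tri f ∧ v ∈ T.tri f := by
  have h2 := T.two u v h
  have : (univ.filter fun f => u ∈ T.tri f ∧ v ∈ T.tri f).Nonempty := by
    rw [← card_pos, h2]
    norm_num
  obtain ⟨f, hf⟩ := this
  simp only [mem_filter, mem_univ, true_and] at hf
  exact ⟨f, hf⟩

/-- A walk that ends at an inner vertex of the barrier, last exit from the outer region on the
outer arc of `c₁`: the end is a vertex `c₁ j`. -/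
lemma Cfg.last (H : Cfg T l h A B c₁ c₂) {k s : ℕ} {a : ℕ → V}
    (hadj : ∀ i < k, T.G.Adj (a i) (a (i + 1))) (hs : s < k)
    (hC : ∀ i < k, a i ∉ barr c₁ c₂ h)
    (hlast : ∀ i, s < i → i ≤ k → a i ∉ T.Vbd (A ∪ B)ᶜ)
    (hend : a k ∈ barr c₁ c₂ h)
    {q : ℤ} (hq1 : h < q) (hq2 : q < l) (hq : a s = c₁ q) :
    ∃ j : ℤ, 0 < j ∧ j < h ∧ a k = c₁ j := by
  obtain ⟨t1, t2, t3, t4, t5⟩ := pTri V F T H.sph
  have hface : ∀ i, s < i → i ≤ k → ∃ f ∈ A \ B, a i ∈ T.tri f := by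
    intro i hi
    induction i, hi using Nat.le_induction with
    | base =>
      intro hk
      have h1 := H.outer hq1 hq2
      rw [← hq] at h1
      simp only [Tri.Vin, mem_filter, mem_univ, true_and] at h1
      obtain ⟨f, f1, f2⟩ := edge_face (hadj s hs)
      refine ⟨f, ?_, f2⟩
      have h3 := h1 f f1
      have h4 : a (s + 1) ∉ T.Vin (A ∪ B)ᶜ := by
        intro h4
        have h5 := t5 (A ∪ B)ᶜ (k - (s + 1)) (fun i => a (s + 1 + i)) (a (s + 1)) (a k)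
          ⟨rfl, by show a (s + 1 + (k - (s + 1))) = a k; congr 1; omega,
            fun i hi => hadj _ (by omega)⟩
          (fun i hi => hlast _ (by omega) (by omega)) h4
        exact H.barr_face hend h5
      have h5 : a (s + 1) ∈ T.Vin ((A ∪ B)ᶜ)ᶜ := by
        rcases t1 (A ∪ B)ᶜ (a (s + 1)) with h6 | h6 | h6
        · exact absurd h6 h4
        · exact absurd h6 (hlast _ (by omega) hk)
        · exact h6
      simp only [Tri.Vin, mem_filter, mem_univ, true_and] at h5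
      have h6 := h5 f f2
      simp only [compl_compl, mem_union, mem_compl, mem_sdiff] at h6 h3 ⊢
      tauto
    | succ i hi ih =>
      intro hk
      obtain ⟨f, f1, f2⟩ := ih (by omega)
      have h3 : a i ∈ T.Vin (A \ B) := by
        rcases t1 (A \ B) (a i) with h6 | h6 | h6
        · exact h6
        · exfalso
          obtain ⟨r, r1, r2, r3⟩ := pos_exists H.sph H.i1.1 h6
          by_cases r4 : r ≤ h
          · exact hC i (by omega) (mem_barr.2 (Or.inl ⟨r, r1, r4, r3⟩))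
          · have := H.outer_bd (q := r) (by omega) (by omega)
            rw [← r3] at this
            exact hlast i (by omega) (by omega) this
        · exfalso
          simp only [Tri.Vin, mem_filter, mem_univ, true_and] at h6
          exact (mem_compl.1 (h6 f f2)) f1
      simp only [Tri.Vin, mem_filter, mem_univ, true_and] at h3
      obtain ⟨g, g1, g2⟩ := edge_face (hadj i (by omega))
      exact ⟨g, h3 g g1, g2⟩
  obtain ⟨f, f1, f2⟩ := hface k hs le_rfl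
  have hbd : a k ∈ T.Vbd (A \ B) := by
    rcases mem_barr.1 hend with ⟨j, -, -, hj⟩ | ⟨j, -, -, hj⟩
    · rw [hj]; exact H.Vbd1 j
    · obtain ⟨g, g1, g2⟩ := (t4 _ _ (H.Vbd2 j)).1
      rw [← hj] at g2
      rcases t1 (A \ B) (a k) with h6 | h6 | h6
      · exfalso
        simp only [Tri.Vin, mem_filter, mem_univ, true_and] at h6
        have := h6 g g2
        simp only [mem_sdiff] at this g1
        tauto
      · exact h6
      · exfalso
        simp only [Tri.Vin, mem_filter, mem_univ, true_and] at h6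
        exact (mem_compl.1 (h6 f f2)) f1
  obtain ⟨r, r1, r2, r3⟩ := pos_exists H.sph H.i1.1 hbd
  have hl := H.hl
  have h1 := H.h1
  refine ⟨r, ?_, ?_, r3⟩
  · rcases lt_or_eq_of_le r1 with h2 | h2
    · exact h2
    · exfalso
      have := H.outer_bd (q := l) (by omega) le_rfl
      have e1 : c₁ (l : ℤ) = c₁ 0 := by simpa using H.i1.1.per 0
      rw [e1, h2, ← r3] at this
      exact hlast k hs le_rfl this
  · by_contra h2
    have := H.outer_bd (q := r) (by omega) (by omega)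
    rw [← r3] at this
    exact hlast k hs le_rfl this

/-- The distance estimate in the situation of `Cfg.last`. -/
lemma Cfg.est (H : Cfg T l h A B c₁ c₂) {k s : ℕ} {a : ℕ → V}
    (hadj : ∀ i < k, T.G.Adj (a i) (a (i + 1))) (hs : s < k)
    {q j : ℤ} (hq1 : h < q) (hq2 : q < l) (hq : a s = c₁ q) (hj1 : 0 < j) (hj2 : j < h)
    (hj : a k = c₁ j) :
    min ((T.G.dist (a 0) (c₁ 0) : ℤ) + j) (T.G.dist (a 0) (c₁ h) + (h - j)) ≤ k := by
  have hconn := H.sph.conn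
  have walk : ∀ i j, i ≤ j → j ≤ k → T.G.dist (a i) (a j) ≤ j - i := by
    intro i j hij
    induction j, hij using Nat.le_induction with
    | base => intro _; simp
    | succ j hij ih =>
      intro hjk
      have h1 := ih (by omega)
      have h2 := hconn.dist_triangle (u := a i) (v := a j) (w := a (j + 1))
      have h3 : T.G.dist (a j) (a (j + 1)) = 1 := SimpleGraph.dist_eq_one_iff_adj.2 (hadj j (by omega))
      omega
  have w1 := walk 0 s (by omega) (by omega)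
  have w2 := walk s k (by omega) le_rfl
  rw [hq] at w1 w2
  rw [hj] at w2
  have d1 := Pool.Agent.Helper7.FF.dist_int T _ l c₁ H.i1 j q (by omega) (by omega)
  have d2 := Pool.Agent.Helper7.FF.dist_int T _ l c₁ H.i1 h q (by omega) (by omega)
  have d3 := Pool.Agent.Helper7.FF.dist_int T _ l c₁ H.i1 q l (by omega) (by omega)
  have e1 : c₁ (l : ℤ) = c₁ 0 := by simpa using H.i1.1.per 0
  rw [e1] at d3
  rw [SimpleGraph.dist_comm] at d1 d2
  have t1 := hconn.dist_triangle (u := a 0) (v := c₁ q) (w := c₁ 0)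
  have t2 := hconn.dist_triangle (u := a 0) (v := c₁ q) (w := c₁ h)
  have m1 := min_le_left ((q : ℤ) - h) (l - (q - h))
  have m2 := min_le_left ((l : ℤ) - q) (l - (l - q))
  rcases min_choice ((q : ℤ) - j) (l - (q - j)) with h5 | h5
  · have := min_le_right ((T.G.dist (a 0) (c₁ 0) : ℤ) + j) (T.G.dist (a 0) (c₁ h) + (h - j))
    omega
  · have := min_le_left ((T.G.dist (a 0) (c₁ 0) : ℤ) + j) (T.G.dist (a 0) (c₁ h) + (h - j))
    omega

/-- The claim for the vertices of the first arc. -/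
lemma Cfg.claim (H : Cfg T l h A B c₁ c₂) {w : V} (hw : w ∈ T.Vin (A ∪ B)ᶜ) {j : ℤ}
    (hj0 : 0 ≤ j) (hjh : j ≤ h) {t : ℕ} (ht : Hits T.G (barr c₁ c₂ h) w t (c₁ j)) :
    min ((T.G.dist w (c₁ 0) : ℤ) + j) (T.G.dist w (c₁ h) + (h - j)) ≤ t := by
  obtain ⟨k, hkt, a, ⟨ha0, hak, hadj⟩, hC⟩ := ht
  have hconn := H.sph.conn
  obtain ⟨t1, t2, t3, t4, t5⟩ := pTri V F T H.sph
  have walk : ∀ j ≤ k, T.G.dist (a 0) (a j) ≤ j := by
    intro j
    induction j with
    | zero => intro _; simp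
    | succ j ih =>
      intro hjk
      have h1 := ih (by omega)
      have h2 := hconn.dist_triangle (u := a 0) (v := a j) (w := a (j + 1))
      have h3 : T.G.dist (a j) (a (j + 1)) = 1 := SimpleGraph.dist_eq_one_iff_adj.2 (hadj j (by omega))
      omega
  have wk := walk k le_rfl
  rw [ha0, hak] at wk
  rcases lt_or_eq_of_le hj0 with hj0 | rfl
  swap
  · have := min_le_left ((T.G.dist w (c₁ 0) : ℤ) + 0) (T.G.dist w (c₁ h) + (h - 0))
    omega
  rcases lt_or_eq_of_le hjh with hjh | rfl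
  swap
  · have := min_le_right ((T.G.dist w (c₁ 0) : ℤ) + h) (T.G.dist w (c₁ h) + (h - h))
    omega
  have hin : c₁ j ∉ T.Vbd (A ∪ B)ᶜ := H.inner hj0 hjh
  have hCj : c₁ j ∈ barr c₁ c₂ h := mem_barr.2 (Or.inl ⟨j, hj0.le, hjh.le, rfl⟩)
  have hex : ∃ s, s ≤ k ∧ a s ∈ T.Vbd (A ∪ B)ᶜ := by
    by_contra hne
    push Not at hne
    have := t5 (A ∪ B)ᶜ k a w (c₁ j) ⟨ha0, hak, hadj⟩ (fun i hi => hne i hi) hw
    exact H.barr_face hCj this
  let s := Nat.findGreatest (fun s => a s ∈ T.Vbd (A ∪ B)ᶜ) k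
  obtain ⟨s₀, hs₀, hs₀'⟩ := hex
  have hs1 : a s ∈ T.Vbd (A ∪ B)ᶜ :=
    Nat.findGreatest_spec (P := fun s => a s ∈ T.Vbd (A ∪ B)ᶜ) hs₀ hs₀'
  have hs2 : s ≤ k := Nat.findGreatest_le k
  have hsk : s < k := by
    rcases lt_or_eq_of_le hs2 with h3 | h3
    · exact h3
    · exfalso
      rw [h3, hak] at hs1
      exact hin hs1
  have hlast : ∀ i, s < i → i ≤ k → a i ∉ T.Vbd (A ∪ B)ᶜ := fun i h3 h4 =>
    Nat.findGreatest_is_greatest h3 h4
  obtain ⟨q, hq1, hq2, hq⟩ := H.pos_outer hs1 (hC s hsk)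
  have hend : a k ∈ barr c₁ c₂ h := by rw [hak]; exact hCj
  have hl := H.hl
  rcases hq with hq | hq
  · have := H.est hadj hsk hq1 hq2 hq hj0 hjh hak
    rw [ha0] at this
    omega
  · obtain ⟨j', hj1, hj2, hj3⟩ := H.swap.last hadj hsk
      (by rw [← barr_swap]; exact hC) (by rw [union_comm]; exact hlast)
      (by rw [← barr_swap]; exact hend) hq1 hq2 hq
    have h4 := H.swap.est hadj hsk hq1 hq2 hq hj1 hj2 hj3
    have d1 := Pool.Agent.Helper7.FF.dist_int T _ l c₁ H.i1 0 j (by omega) (by omega)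
    have d2 := Pool.Agent.Helper7.FF.dist_int T _ l c₂ H.i2 0 j' (by omega) (by omega)
    rw [← hak, hj3, H.p] at d1
    have m1 : min (j - 0) ((l : ℤ) - (j - 0)) = j - 0 := min_eq_left (by omega)
    have m2 : min (j' - 0) ((l : ℤ) - (j' - 0)) = j' - 0 := min_eq_left (by omega)
    have : j = j' := by omega
    subst this
    rw [ha0, ← H.p, ← H.q] at h4
    omega

lemma Vin_disj (hS : T.Sphere) {X Y : Finset F} (hXY : Disjoint X Y) {v : V} (h1 : v ∈ T.Vin X)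
    (h2 : v ∈ T.Vin Y) : False := by
  obtain ⟨f, hf⟩ := hS.face v
  simp only [Tri.Vin, mem_filter, mem_univ, true_and] at h1 h2
  exact Finset.disjoint_left.1 hXY (h1 f hf) (h2 f hf)

end

theorem pf_StmtPairBar : StmtPairBar := by
  intro V F _ _ T hS e l A B h c₁ c₂ w bA bB bO i1 i2 h1 hl hp hq e1 e2 e3 e4 e5 hw hbad
  have H : Cfg T l h A B c₁ c₂ := ⟨hS, bA, bB, bO, i1, i2, h1, hl, hp, hq, e1, e2, e3, e4, e5⟩
  have hconn := hS.conn
  obtain ⟨t1, t2, t3, t4, t5⟩ := pTri V F T hS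
  have hwC : w ∉ barr c₁ c₂ h := fun h3 => H.barr_face h3 hw
  have hPC : c₁ 0 ∈ barr c₁ c₂ h := mem_barr.2 (Or.inl ⟨0, le_rfl, by omega, rfl⟩)
  have hQC : c₁ h ∈ barr c₁ c₂ h := mem_barr.2 (Or.inl ⟨h, by omega, le_rfl, rfl⟩)
  have dP : 1 ≤ T.G.dist w (c₁ 0) :=
    hconn.pos_dist_of_ne (fun h3 => hwC (h3 ▸ hPC))
  have dQ : 1 ≤ T.G.dist w (c₁ h) :=
    hconn.pos_dist_of_ne (fun h3 => hwC (h3 ▸ hQC))
  have dPQ : h ≤ T.G.dist w (c₁ 0) + T.G.dist w (c₁ h) := by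
    have d1 := Pool.Agent.Helper7.FF.dist_int T _ l c₁ i1 0 h (by omega) (by omega)
    have m1 : min ((h : ℤ) - 0) ((l : ℤ) - (h - 0)) = h - 0 := min_eq_left (by omega)
    have h3 := hconn.dist_triangle (u := c₁ 0) (v := w) (w := c₁ h)
    rw [SimpleGraph.dist_comm (u := c₁ 0) (v := w)] at h3
    omega
  have good : Good T.G w (barr c₁ c₂ h) := by
    refine pTwoCorner V T.G w (c₁ 0) (c₁ h) (barr c₁ c₂ h) h (T.G.dist w (c₁ 0))
      (T.G.dist w (c₁ h)) (fun n => c₁ n) (fun n => c₂ n) h1 dP dQ dPQ rfl ?_ rfl ?_ hwC ?_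
    · simpa using hp.symm
    · exact hq.symm
    · intro c hc
      rcases mem_barr.1 hc with ⟨j, j1, j2, rfl⟩ | ⟨j, j1, j2, rfl⟩
      · obtain ⟨n, rfl⟩ := Int.eq_ofNat_of_zero_le j1
        refine ⟨n, by omega, Or.inl rfl, fun t ht => ?_⟩
        have := H.claim hw j1 j2 ht
        omega
      · obtain ⟨n, rfl⟩ := Int.eq_ofNat_of_zero_le j1
        refine ⟨n, by omega, Or.inr rfl, fun t ht => ?_⟩
        have := H.swap.claim (by rw [union_comm]; exact hw) j1 j2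
          (by rw [← barr_swap]; exact ht)
        rw [← hp, ← hq] at this
        omega
  refine hbad _ good _ ?_
  intro v hv k a ⟨ha0, hak, hadj⟩
  by_contra hne
  push Not at hne
  have hwZ : w ∈ T.Vin (A ∩ B)ᶜ := by
    simp only [Tri.Vin, mem_filter, mem_univ, true_and] at hw ⊢
    intro f hf
    have := hw f hf
    simp only [mem_compl, mem_union, mem_inter] at this ⊢
    tauto
  have := t5 (A ∩ B)ᶜ k a w v ⟨ha0, hak, hadj⟩ (fun i hi => ?_) hwZ
  · exact Vin_disj hS disjoint_compl_right hv this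
  · rw [t3]
    intro h3
    simp only [Tri.Vbd, mem_filter, mem_univ, true_and] at h3
    obtain ⟨e', he', hx⟩ := h3
    apply hne i hi
    rcases H.bdZ he' with h4 | h4
    · obtain ⟨t, h5, h6, rfl⟩ := mem_arcE.1 h4
      rw [Sym2.mem_iff] at hx
      rcases hx with hx | hx
      · exact mem_barr.2 (Or.inl ⟨t, h5, by omega, hx⟩)
      · exact mem_barr.2 (Or.inl ⟨t + 1, by omega, by omega, hx⟩)
    · obtain ⟨t, h5, h6, rfl⟩ := mem_arcE.1 h4
      rw [Sym2.mem_iff] at hx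
      rcases hx with hx | hx
      · exact mem_barr.2 (Or.inr ⟨t, h5, by omega, hx⟩)
      · exact mem_barr.2 (Or.inr ⟨t + 1, by omega, by omega, hx⟩)

end Pool.Agent.Helper41.FF
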